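import Pool.Agent.Helper27_ATB.LOX

set_option autoImplicit false

/-!
# ATB, row LOC from row LOX
-/

namespace Pool.Agent.ATB.H27

theorem loc_of_lox (hX : LOXStmt) : LOCStmt := by
  intro p hp K _ hchar n Y h1 h2
  obtain ⟨W, b, hW, hb, hex⟩ := hX p K n Y h2
  refine ⟨W, b - Module.finrank K W, ?_, hex⟩
  intro _ F hF
  have hFt : F ≠ ⊤ := by
    rintro rfl
    exact hW (top_le_iff.1 hF)
  have h3 := h1 F hFt
  have h4 : (ins Y F).card + (out Y F).card = Y.card := by
    rw [← Multiset.card_add, ins_add_out]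
  have h5 : Module.finrank K W + 1 ≤ n := by
    have h6 := Submodule.finrank_lt hW
    rw [Module.finrank_fin_fun] at h6
    omega
  rw [ins_ins hF]
  have h7 : ((ins Y F).card : ℤ) + (out Y F).card = Y.card := by exact_mod_cast h4
  have h8 : ((Module.finrank K W : ℤ) + 1) * p ≤ (n : ℤ) * p := by
    have : (Module.finrank K W : ℤ) + 1 ≤ n := by exact_mod_cast h5
    exact mul_le_mul_of_nonneg_right this (by positivity)
  nlinarith [h3, h7, h8, hb]

end Pool.Agent.ATB.H27
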