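import Pool.Agent.ATB.Stmts3

set_option autoImplicit false

/-!
# ATB, row LOX: the core of the local criterion
-/

namespace Pool.Agent.ATB.H27

open scoped TensorProduct

section lox
variable {K : Type} [Field K] {n : ℕ}

theorem exists_min {α : Type} (P : α → Prop) (f : α → ℕ) (h : ∃ a, P a) :
    ∃ a, P a ∧ ∀ a', P a' → f a ≤ f a' := by
  classical
  have h' : ∃ m, ∃ a, P a ∧ f a = m := by
    obtain ⟨a, ha⟩ := h
    exact ⟨f a, a, ha, rfl⟩
  obtain ⟨a, ha, hfa⟩ := Nat.find_spec h'
  refine ⟨a, ha, fun a' ha' => ?_⟩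
  rw [hfa]
  exact Nat.find_min' h' ⟨a', ha', rfl⟩

/-- the functional `q ↦ lam p (g q f)` -/
noncomputable def Lf (p : ℕ) (g f : MvPolynomial (Fin n) K) : MvPolynomial (Fin n) K →ₗ[K] K where
  toFun q := lam p (g * q * f)
  map_add' := by
    intro x y
    simp only [lam]
    rw [mul_add, add_mul, MvPolynomial.coeff_add]
  map_smul' := by
    intro c x
    simp only [lam, RingHom.id_apply, smul_eq_mul]
    rw [mul_smul_comm, smul_mul_assoc, MvPolynomial.coeff_smul, smul_eq_mul]

/-- the same on forms -/
noncomputable def Lx (p : ℕ) (g f : MvPolynomial (Fin n) K) :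
    AA K n →ₗ[K] ExteriorAlgebra K (Fin n → K) :=
  (TensorProduct.lid K (ExteriorAlgebra K (Fin n → K))).toLinearMap ∘ₗ
    TensorProduct.map (Lf p g f) LinearMap.id

theorem Lx_tmul (p : ℕ) (g f q : MvPolynomial (Fin n) K) (ω : ExteriorAlgebra K (Fin n → K)) :
    Lx p g f (q ⊗ₜ[K] ω) = lam p (g * q * f) • ω := by
  simp [Lx, Lf]

theorem sp_top_inI {p : ℕ} {B : Multiset (Fin n → K)} {f : MvPolynomial (Fin n) K}
    (h : ∀ c ∈ B, InI p (lin c * f)) (v : Fin n → K) (hv : v ∈ sp B) : InI p (lin v * f) := by
  intro g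
  have h1 : ∀ v : Fin n → K, lam p (g * (lin v * f)) = lam p (g * (lin v) * f) := by
    intro v
    rw [mul_assoc]
  rw [h1]
  change ((Lf p g f) ∘ₗ lin) v = 0
  have h2 : sp B ≤ LinearMap.ker ((Lf p g f) ∘ₗ lin) := by
    rw [sp_le]
    intro z hz
    rw [LinearMap.mem_ker]
    change lam p (g * lin z * f) = 0
    rw [← h1]
    exact h z hz g
  exact LinearMap.mem_ker.1 (h2 hv)

theorem inI_of_X {p : ℕ} {f : MvPolynomial (Fin n) K} (h0 : lam p f = 0)
    (h : ∀ s, InI p (MvPolynomial.X s * f)) : InI p f := by
  intro g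
  induction g using MvPolynomial.induction_on with
  | C a =>
    simp only [lam] at *
    rw [MvPolynomial.coeff_C_mul, h0, mul_zero]
  | add x y hx hy =>
    simp only [lam] at *
    rw [add_mul, MvPolynomial.coeff_add, hx, hy, add_zero]
  | mul_X q s _ =>
    rw [mul_assoc]
    exact h s q

theorem msum_apply (T : Multiset (Fin n → K)) (s : Fin n) :
    T.sum s = (T.map (fun v => v s)).sum := by
  have h := map_multiset_sum (LinearMap.proj s : (Fin n → K) →ₗ[K] K) T
  rw [LinearMap.proj_apply] at h
  rw [h]
  rfl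

theorem finrank_sp_le (B : Multiset (Fin n → K)) : Module.finrank K (sp B) ≤ n := by
  have h := Submodule.finrank_le (sp B)
  rwa [Module.finrank_fin_fun] at h

theorem finrank_cons_lt {B : Multiset (Fin n → K)} {a : Fin n → K} (ha : a ∉ sp B) :
    Module.finrank K (sp B) < Module.finrank K (sp (a ::ₘ B)) := by
  apply Submodule.finrank_lt_finrank_of_lt
  rw [sp_cons]
  refine lt_of_le_of_ne le_sup_left fun h => ha ?_
  rw [h]
  exact Submodule.mem_sup_right (Submodule.mem_span_singleton_self a)

theorem lox (hA : LCAStmt) (hB : LCBStmt) (hC : LCCStmt) : LOXStmt := by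
  intro p hp K _ hchar n Y hU
  have : DecidableEq K := Classical.decEq K
  obtain ⟨a1, a2, a3, _, a5, a6⟩ := hA p K n
  have hcard : ∀ B D : Multiset (Fin n → K), B + D = Y → ¬ InI p (prodm D) →
      D.card < (p - 1) * n := by
    intro B D hBD hD
    by_contra hlt
    apply hD
    intro g
    rcases Nat.lt_or_ge ((p - 1) * n) D.card with h | h
    · exact a1 g D h
    · have h2 : D.card = (p - 1) * n := by omega
      rw [a2 g D h2, hU D B (by rw [add_comm]; exact hBD) h2, mul_zero]
  let S : Multiset (Fin n → K) → Prop := fun B => ∃ D, B + D = Y ∧ ¬ InI p (prodm D)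
  have hSY : S Y := ⟨0, add_zero Y, by rw [prodm_zero]; exact a6⟩
  obtain ⟨B₁, hB₁, hmin⟩ := exists_min S Multiset.card ⟨Y, hSY⟩
  obtain ⟨B₀, ⟨⟨D₀, hBD, hD₀⟩, hc0⟩, hmax⟩ := exists_min (fun B => S B ∧ B.card = B₁.card)
    (fun B => n - Module.finrank K (sp B)) ⟨B₁, hB₁, rfl⟩
  have hmin0 : ∀ B D : Multiset (Fin n → K), B + D = Y → B.card < B₀.card → InI p (prodm D) := by
    intro B D h1 h2
    by_contra h3
    have := hmin B ⟨D, h1, h3⟩
    omega
  have hmax0 : ∀ B D : Multiset (Fin n → K), B + D = Y → B.card = B₀.card →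
      Module.finrank K (sp B₀) < Module.finrank K (sp B) → InI p (prodm D) := by
    intro B D h1 h2 h3
    by_contra h4
    have h5 : n - Module.finrank K (sp B₀) ≤ n - Module.finrank K (sp B) :=
      hmax B ⟨⟨D, h1, h4⟩, by omega⟩
    have h6 := finrank_sp_le B
    omega
  have hcD := hcard B₀ D₀ hBD hD₀
  have hWtop : sp B₀ ≠ ⊤ := by
    intro htop
    apply hD₀
    apply inI_of_X (a3 D₀ hcD)
    intro s
    rw [← lin_single]
    apply sp_top_inI (B := B₀) _ _ (by rw [htop]; trivial)
    intro c hc
    obtain ⟨B₂, rfl⟩ := Multiset.exists_cons_of_mem hc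
    rw [← prodm_cons]
    apply hmin0 B₂ (c ::ₘ D₀)
    · rw [← hBD, Multiset.add_cons, Multiset.cons_add]
    · rw [Multiset.card_cons]
      omega
  refine ⟨sp B₀, (B₀.card : ℤ), hWtop, ?_, ?_⟩
  · have h1 : B₀.card + D₀.card = Y.card := by rw [← hBD, Multiset.card_add]
    have hp1 : 1 ≤ p := hp.out.one_lt.le
    have h2 : (D₀.card : ℤ) < ((p : ℤ) - 1) * n := by
      have h3 : (D₀.card : ℤ) < (((p - 1) * n : ℕ) : ℤ) := by exact_mod_cast hcD
      rw [Nat.cast_mul, Nat.cast_sub hp1, Nat.cast_one] at h3
      exact h3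
    have h4 : (B₀.card : ℤ) + D₀.card = Y.card := by exact_mod_cast h1
    omega
  · intro hexact
    set W := sp B₀ with hW
    have hinsB : ins B₀ W = B₀ := ins_eq_self fun z hz => mem_sp hz
    have hoB : out B₀ W = 0 := by
      have h1 := ins_add_out B₀ W
      rw [hinsB] at h1
      exact (Multiset.add_right_inj (s := B₀)).1 (by rw [h1, add_zero])
    have hinsY : ins Y W = B₀ + ins D₀ W := by
      rw [← hBD, ins_add, hinsB]
    have houtY : out Y W = out D₀ W := by
      rw [← hBD, out_add, hoB, zero_add]
    have hCc : ∀ k i, Cc k (ins Y W) W i = OmH k (ins Y W) W i := by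
      intro k i
      rw [Cc, ins_ins le_rfl]
    have hg : ∃ g, lam p (g * prodm D₀) ≠ 0 := by
      by_contra hcon
      push Not at hcon
      exact hD₀ hcon
    obtain ⟨g, hg⟩ := hg
    obtain ⟨vol, hvol, hvol0⟩ := (hC K n W).1
    have htop := (hC K n W).2
    obtain ⟨θ, hθ, hdθ⟩ := hexact (prodm (ins D₀ W) ⊗ₜ[K] vol) (by
      rw [hCc]
      apply Submodule.subset_span
      refine ⟨B₀, ins D₀ W, vol, hvol, hinsY.symm, rfl, by ring, rfl⟩) (by
      rw [(hB K n (ins D₀ W)).2 vol]
      apply Multiset.sum_eq_zero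
      intro x hx
      rw [Multiset.mem_map] at hx
      obtain ⟨a, ha, rfl⟩ := hx
      rw [htop a (mem_ins.1 ha).2 vol hvol, TensorProduct.tmul_zero])
    have hkey : OmH ((B₀.card : ℤ) - Module.finrank K W) (ins Y W) W (Module.finrank K W - 1) ≤
        LinearMap.ker (Lx p g (prodm (out Y W)) ∘ₗ dd) := by
      rw [OmH, Submodule.span_le]
      rintro x ⟨B, D, ω, hω, hBDZ, hspB, hcB, rfl⟩
      rw [SetLike.mem_coe, LinearMap.mem_ker, LinearMap.comp_apply, (hB K n D).2 ω,
        map_multiset_sum, Multiset.map_map]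
      have hBc : B.card + 1 = B₀.card := by omega
      have e1 : (D.map (fun a => (Lx p g (prodm (out Y W)))
          (prodm (D.erase a) ⊗ₜ[K] (ExteriorAlgebra.ι K a * ω)))).sum =
          (D.map (fun a => (ExteriorAlgebra.ι K
            (lam p (g * prodm (D.erase a) * prodm (out Y W)) • a)) * ω)).sum := by
        congr 1
        apply Multiset.map_congr rfl
        intro a _
        rw [Lx_tmul, map_smul, smul_mul_assoc]
      have e2 : (D.map (fun a => (ExteriorAlgebra.ι K
            (lam p (g * prodm (D.erase a) * prodm (out Y W)) • a)) * ω)).sum =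
          ExteriorAlgebra.ι K ((D.map (fun a =>
            lam p (g * prodm (D.erase a) * prodm (out Y W)) • a)).sum) * ω := by
        rw [Multiset.sum_map_mul_right, map_multiset_sum, Multiset.map_map]
        rfl
      have e3 : (D.map (fun a =>
            lam p (g * prodm (D.erase a) * prodm (out Y W)) • a)).sum = 0 := by
        have hY : B + (D + out Y W) = Y := by
          rw [← add_assoc, hBDZ, ins_add_out]
        funext s
        have hL : ∀ q, lam p (g * q) = Lf p g 1 q := fun q => by
          change _ = lam p (g * q * 1)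
          rw [mul_one]
        have h1 := a5 s _ (hmin0 B (D + out Y W) hY (by omega)) g
        rw [(hB K n (D + out Y W)).1 s, Multiset.map_add, Multiset.sum_add, hL, map_add, ← hL,
          ← hL] at h1
        have h2 : lam p (g * ((out Y W).map (fun a => MvPolynomial.C (a s) *
            prodm ((D + out Y W).erase a))).sum) = 0 := by
          rw [hL, map_multiset_sum, Multiset.map_map]
          apply Multiset.sum_eq_zero
          intro x hx
          rw [Multiset.mem_map] at hx
          obtain ⟨a, ha, rfl⟩ := hx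
          have h3 : (D + out Y W).erase a = D + (out Y W).erase a :=
            Multiset.erase_add_right_pos D ha
          have h6 : a ::ₘ B + (D + (out Y W).erase a) = Y := by
            calc a ::ₘ B + (D + (out Y W).erase a) = B + (D + (a ::ₘ (out Y W).erase a)) := by
                  rw [Multiset.cons_add, ← Multiset.add_cons, ← Multiset.add_cons]
              _ = Y := by rw [Multiset.cons_erase ha, hY]
          have h4 := hmax0 (a ::ₘ B) (D + (out Y W).erase a) h6
            (by rw [Multiset.card_cons]; omega) (by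
              have h7 : a ∉ sp B := by
                rw [hspB]
                exact (mem_out.1 ha).2
              have h8 := finrank_cons_lt h7
              rw [hspB] at h8
              exact h8)
          have h5 := h4 (g * MvPolynomial.C (a s))
          rw [Function.comp_apply, h3, ← hL, ← mul_assoc]
          exact h5
        rw [h2, add_zero, hL, map_multiset_sum, Multiset.map_map] at h1
        rw [Pi.zero_apply, ← h1]
        rw [msum_apply, Multiset.map_map]
        congr 1
        apply Multiset.map_congr rfl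
        intro a ha
        have h3 : (D + out Y W).erase a = D.erase a + out Y W :=
          Multiset.erase_add_left_pos (out Y W) ha
        rw [Function.comp_apply, Function.comp_apply, h3, ← hL, prodm_add,
          Pi.smul_apply, smul_eq_mul]
        have h4 : g * (MvPolynomial.C (a s) * (prodm (D.erase a) * prodm (out Y W))) =
            MvPolynomial.C (a s) * (g * prodm (D.erase a) * prodm (out Y W)) := by ring
        rw [h4, mul_comm]
        simp only [lam]
        rw [MvPolynomial.coeff_C_mul]
      have e4 : ∀ T : Multiset (ExteriorAlgebra K (Fin n → K)), T =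
          D.map (fun a => (Lx p g (prodm (out Y W)))
          (prodm (D.erase a) ⊗ₜ[K] (ExteriorAlgebra.ι K a * ω))) → T.sum = 0 := by
        rintro T rfl
        rw [e1, e2, e3, map_zero, zero_mul]
      exact e4 _ rfl
    rw [hCc] at hθ
    have h1 := LinearMap.mem_ker.1 (hkey hθ)
    rw [LinearMap.comp_apply, hdθ, Lx_tmul] at h1
    have h2 : g * prodm (ins D₀ W) * prodm (out Y W) = g * prodm D₀ := by
      rw [houtY, mul_assoc, ← prodm_add, ins_add_out]
    rw [h2] at h1
    rcases smul_eq_zero.1 h1 with h3 | h3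
    · exact hg h3
    · exact hvol0 h3

end lox

end Pool.Agent.ATB.H27
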