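import Pool.Agent.ATB.Stmts

set_option autoImplicit false

/-!
# Squad ATB, row SGE: for large `s` the complex is `Sig`
-/

namespace Pool.Agent.ATB.H27

open scoped TensorProduct

section sge

variable {K : Type} [Field K] {n : ℕ}

/-- splitting of a decomposition of `replicate s c + Z` -/
theorem split_replicate {α : Type} (c : α) (Z : Multiset α) : ∀ (s : ℕ) (B D : Multiset α),
    B + D = Multiset.replicate s c + Z → ∃ (l m : ℕ) (B₁ D₁ : Multiset α), m + l = s ∧
      B = Multiset.replicate m c + B₁ ∧ D = Multiset.replicate l c + D₁ ∧ B₁ + D₁ = Z := by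
  intro s
  induction s with
  | zero =>
    intro B D h
    refine ⟨0, 0, B, D, rfl, ?_, ?_, ?_⟩
    · simp
    · simp
    · simpa using h
  | succ s ih =>
    intro B D h
    rw [Multiset.replicate_succ, Multiset.cons_add] at h
    have hc : c ∈ B + D := by
      rw [h]
      exact Multiset.mem_cons_self c _
    rcases Multiset.mem_add.1 hc with hB | hD
    · obtain ⟨B', rfl⟩ := Multiset.exists_cons_of_mem hB
      rw [Multiset.cons_add] at h
      obtain ⟨l, m, B₁, D₁, h1, h2, h3, h4⟩ := ih B' D ((Multiset.cons_inj_right c).1 h)
      refine ⟨l, m + 1, B₁, D₁, by omega, ?_, h3, h4⟩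
      rw [h2, Multiset.replicate_succ, Multiset.cons_add]
    · obtain ⟨D', rfl⟩ := Multiset.exists_cons_of_mem hD
      rw [Multiset.add_cons] at h
      obtain ⟨l, m, B₁, D₁, h1, h2, h3, h4⟩ := ih B D' ((Multiset.cons_inj_right c).1 h)
      refine ⟨l + 1, m, B₁, D₁, by omega, h2, ?_, h4⟩
      rw [h3, Multiset.replicate_succ, Multiset.cons_add]

theorem sp_replicate (c : Fin n → K) {m : ℕ} (hm : 0 < m) :
    sp (Multiset.replicate m c) = Submodule.span K {c} := by
  rw [sp]
  congr 1
  ext z
  rw [Set.mem_ofPred_eq, Set.mem_singleton_iff, Multiset.mem_replicate]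
  exact ⟨fun h => h.2, fun h => ⟨hm.ne', h⟩⟩

end sge

theorem sge : SGEStmt := by
  intro K _ n k Z c i s hk hs
  apply le_antisymm
  · rw [Om, Submodule.span_le]
    rintro x ⟨B, D, ω, hω, hBD, hB, rfl⟩
    show _ ∈ Sig k Z c i
    by_cases hi : i < 0
    · rw [Lpow_neg _ hi, Submodule.mem_bot] at hω
      rw [hω, TensorProduct.tmul_zero]
      exact Submodule.zero_mem _
    · obtain ⟨l, m, B₁, D₁, h1, h2, h3, h4⟩ := split_replicate c Z s B D hBD
      have hcard : (B₁.card : ℤ) = k + l + i := by
        rw [h2, Multiset.card_add, Multiset.card_replicate] at hB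
        push_cast at hB
        have : (m : ℤ) + l = s := by exact_mod_cast h1
        linarith
      have hm : 0 < m := by
        by_contra hm
        have hm0 : m = 0 := by omega
        have h5 : B₁.card ≤ Z.card := by
          rw [← h4, Multiset.card_add]
          exact Nat.le_add_right _ _
        have h6 : l = s := by omega
        rw [h6] at hcard
        have h7 : (B₁.card : ℤ) ≤ Z.card := by exact_mod_cast h5
        have h8 : (Z.card : ℤ) < s := by exact_mod_cast hs
        linarith
      apply Submodule.subset_span
      refine ⟨l, B₁, D₁, ω, ?_, h4, hcard, ?_⟩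
      · rw [h2, sp_add, sp_replicate c hm, sup_comm] at hω
        exact hω
      · rw [h3, prodm_add, prodm_replicate]
  · rw [Sig, Submodule.span_le]
    rintro x ⟨l, B, D, ω, hω, hBD, hB, rfl⟩
    show _ ∈ Om (k + s) (Multiset.replicate s c + Z) i
    by_cases hi : i < 0
    · rw [Lpow_neg _ hi, Submodule.mem_bot] at hω
      rw [hω, TensorProduct.tmul_zero]
      exact Submodule.zero_mem _
    · have hl : l < s := by
        have h5 : B.card ≤ Z.card := by
          rw [← hBD, Multiset.card_add]
          exact Nat.le_add_right _ _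
        have h7 : (B.card : ℤ) ≤ Z.card := by exact_mod_cast h5
        have h8 : (Z.card : ℤ) < s := by exact_mod_cast hs
        have : (l : ℤ) < s := by linarith
        exact_mod_cast this
      apply Submodule.subset_span
      refine ⟨Multiset.replicate (s - l) c + B, Multiset.replicate l c + D, ω, ?_, ?_, ?_, ?_⟩
      · rw [sp_add, sp_replicate c (by omega), sup_comm]
        exact hω
      · rw [← hBD, add_add_add_comm, ← Multiset.replicate_add]
        congr 2
        omega
      · rw [Multiset.card_add, Multiset.card_replicate]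
        push_cast [hB, Nat.cast_sub hl.le]
        ring
      · rw [prodm_add, prodm_replicate]

end Pool.Agent.ATB.H27
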