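import Pool.Agent.ATB.Stmts

set_option autoImplicit false

/-!
# Squad ATB, row SGI: `Sig` is invariant under `z ↦ z + β c`
-/

namespace Pool.Agent.ATB.H27

open scoped TensorProduct

section sgi

variable {K : Type} [Field K] {n : ℕ}

theorem Lpow_mono' {U U' : Submodule K (Fin n → K)} (h : U ≤ U') (i : ℤ) : Lpow U i ≤ Lpow U' i := by
  cases i with
  | ofNat m =>
    show (U.map (ExteriorAlgebra.ι K)) ^ m ≤ (U'.map (ExteriorAlgebra.ι K)) ^ m
    exact pow_le_pow_left' (Submodule.map_mono h) m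
  | negSucc m => exact le_refl _

theorem sig_step (k : ℤ) (Y : Multiset (Fin n → K)) (c z : Fin n → K) (β : K) (i : ℤ) :
    Sig k ((z + β • c) ::ₘ Y) c i ≤ Sig k (z ::ₘ Y) c i := by
  rw [Sig, Submodule.span_le]
  rintro x ⟨l, B, D, ω, hω, hBD, hB, rfl⟩
  show _ ∈ Sig k (z ::ₘ Y) c i
  have hc : z + β • c ∈ B + D := by
    rw [hBD]
    exact Multiset.mem_cons_self _ _
  rcases Multiset.mem_add.1 hc with h | h
  · obtain ⟨B₁, rfl⟩ := Multiset.exists_cons_of_mem h
    rw [Multiset.cons_add] at hBD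
    have h1 := (Multiset.cons_inj_right _).1 hBD
    apply Submodule.subset_span
    refine ⟨l, z ::ₘ B₁, D, ω, ?_, ?_, ?_, rfl⟩
    · refine Lpow_mono' ?_ i hω
      refine sup_le ?_ le_sup_right
      rw [sp_le]
      intro y hy
      rcases Multiset.mem_cons.1 hy with rfl | hy
      · apply Submodule.add_mem
        · exact Submodule.mem_sup_left (mem_sp (Multiset.mem_cons_self z B₁))
        · exact Submodule.mem_sup_right (Submodule.smul_mem _ _ (Submodule.mem_span_singleton_self c))
      · exact Submodule.mem_sup_left (mem_sp (Multiset.mem_cons_of_mem hy))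
    · rw [Multiset.cons_add, h1]
    · rw [Multiset.card_cons] at hB ⊢
      exact hB
  · obtain ⟨D₁, rfl⟩ := Multiset.exists_cons_of_mem h
    rw [Multiset.add_cons] at hBD
    have h1 := (Multiset.cons_inj_right _).1 hBD
    have h2 : (lin c ^ l * prodm ((z + β • c) ::ₘ D₁)) ⊗ₜ[K] ω =
        (lin c ^ l * prodm (z ::ₘ D₁)) ⊗ₜ[K] ω + β • ((lin c ^ (l + 1) * prodm D₁) ⊗ₜ[K] ω) := by
      rw [TensorProduct.smul_tmul', ← TensorProduct.add_tmul]
      congr 1
      rw [prodm_cons, prodm_cons, map_add, map_smul, MvPolynomial.smul_eq_C_mul,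
        MvPolynomial.smul_eq_C_mul]
      ring
    rw [h2]
    apply Submodule.add_mem
    · apply Submodule.subset_span
      refine ⟨l, B, z ::ₘ D₁, ω, hω, ?_, hB, rfl⟩
      rw [Multiset.add_cons, h1]
    · apply Submodule.smul_mem
      apply Submodule.subset_span
      refine ⟨l + 1, z ::ₘ B, D₁, ω, ?_, ?_, ?_, rfl⟩
      · refine Lpow_mono' ?_ i hω
        refine sup_le_sup ?_ le_rfl
        rw [sp_le]
        intro y hy
        exact mem_sp (Multiset.mem_cons_of_mem hy)
      · rw [Multiset.cons_add, h1]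
      · rw [Multiset.card_cons]
        push_cast
        linarith

theorem sig_step_eq (k : ℤ) (Y : Multiset (Fin n → K)) (c z z' : Fin n → K)
    (h : z' - z ∈ Submodule.span K {c}) (i : ℤ) :
    Sig k (z' ::ₘ Y) c i = Sig k (z ::ₘ Y) c i := by
  obtain ⟨β, hβ⟩ := Submodule.mem_span_singleton.1 h
  apply le_antisymm
  · have h1 := sig_step k Y c z β i
    have h2 : z + β • c = z' := by rw [hβ]; abel
    rwa [h2] at h1
  · have h1 := sig_step k Y c z' (-β) i
    have h2 : z' + (-β) • c = z := by rw [neg_smul, hβ]; abel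
    rwa [h2] at h1

theorem sig_map (k : ℤ) (c : Fin n → K) (i : ℤ) (f : (Fin n → K) → (Fin n → K))
    (Z : Multiset (Fin n → K)) : (∀ z ∈ Z, f z - z ∈ Submodule.span K {c}) →
    ∀ Y : Multiset (Fin n → K), Sig k (Z.map f + Y) c i = Sig k (Z + Y) c i := by
  induction Z using Multiset.induction_on with
  | empty =>
    intro _ Y
    rw [Multiset.map_zero]
  | cons z Z ih =>
    intro h Y
    rw [Multiset.map_cons, Multiset.cons_add,
      sig_step_eq k _ c z (f z) (h z (Multiset.mem_cons_self z Z)) i, ← Multiset.add_cons,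
      ih (fun y hy => h y (Multiset.mem_cons_of_mem hy)) (z ::ₘ Y), Multiset.add_cons,
      Multiset.cons_add]

end sgi

theorem sgi : SGIStmt := by
  intro K _ n k Z c i f hf
  have h := sig_map k c i f Z hf 0
  rwa [add_zero, add_zero] at h

end Pool.Agent.ATB.H27
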